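import Pool.Agent.K1H88.DF.Stm

/-! Project DF, piece RED: reduction of the lattice generated by `x` and `y` over the integers of
`F`, from Dirichlet's theorem (DIR), the covering radius (COV) and a nearly minimal vector (RED1). -/

set_option autoImplicit false

namespace Pool.Agent.K1H35.DF

open Module NumberField
open Pool.Agent.K1H88
open Pool.Agent.K1H88.DP (pl)
open Pool.Agent.K1H88.DF

section
variable {F : Type} [Field F] [NumberField F] {ι : Type} [Fintype ι] {E : ι → Type}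
  [∀ k, Field (E k)] [∀ k, NumberField (E k)] [∀ k, Algebra F (E k)]

lemma ev {u : F →+* ℂ} (i : EmbU F E u) (x y : ∀ k, E k) (a b : F) :
    i.1.2 ((a • x + b • y) i.1.1) = u a * i.1.2 (x i.1.1) + u b * i.1.2 (y i.1.1) := by
  have h : ∀ t : F, i.1.2 (algebraMap F (E i.1.1) t) = u t := fun t => by
    have := congrArg (fun f : F →+* ℂ => f t) i.2
    simpa using this
  rw [Pi.add_apply, Pi.smul_apply, Pi.smul_apply, Algebra.smul_def, Algebra.smul_def, map_add,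
    map_mul, map_mul, h, h]

lemma pl_lin {u : F →+* ℂ} (i j : EmbU F E u) (x y : ∀ k, E k) (a b c d : F) :
    pl E (a • x + b • y) (c • x + d • y) i.1 j.1 = u (a * d - b * c) * pl E x y i.1 j.1 := by
  simp only [pl, ev, map_sub, map_mul]
  ring

/-- the conjugate of an embedding above the conjugate of `u` -/
def conjE {u : F →+* ℂ} (i : EmbU F E (ComplexEmbedding.conjugate u)) : EmbU F E u :=
  ⟨⟨i.1.1, ComplexEmbedding.conjugate i.1.2⟩, by
    ext t
    have := congrArg (fun f : F →+* ℂ => f t) i.2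
    simp only [RingHom.comp_apply, ComplexEmbedding.conjugate_coe_eq] at this ⊢
    rw [this]
    simp⟩

lemma conjE_apply {u : F →+* ℂ} (i : EmbU F E (ComplexEmbedding.conjugate u)) (z : ∀ k, E k) :
    (conjE i).1.2 (z (conjE i).1.1) = (starRingEnd ℂ) (i.1.2 (z i.1.1)) := by
  rfl

lemma wt_conjE {u : F →+* ℂ} (i : EmbU F E (ComplexEmbedding.conjugate u)) (x y : ∀ k, E k) :
    wt E x y (conjE i).1 = (starRingEnd ℂ) (wt E x y i.1) := by
  simp only [wt, conjE_apply, map_div₀]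

end

lemma wdiff {X Y X' Y' : ℂ} {D ρ ρ' μ : ℝ} (hμ : 0 < μ) (hρ : 0 < ρ) (hρ' : 0 < ρ')
    (hX : μ * ρ ≤ ‖X‖) (hX' : μ * ρ' ≤ ‖X'‖) (h : ‖X * Y' - X' * Y‖ ≤ D * (ρ * ρ')) :
    ‖Y / X - Y' / X'‖ ≤ D / μ ^ 2 := by
  have h1 : 0 < ‖X‖ := lt_of_lt_of_le (by positivity) hX
  have h2 : 0 < ‖X'‖ := lt_of_lt_of_le (by positivity) hX'
  have h1' : X ≠ 0 := norm_pos_iff.1 h1
  have h2' : X' ≠ 0 := norm_pos_iff.1 h2
  have e : Y / X - Y' / X' = -(X * Y' - X' * Y) / (X * X') := by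
    field_simp
    ring
  have hD : 0 ≤ D := by
    by_contra hD
    have : D * (ρ * ρ') < 0 := mul_neg_of_neg_of_pos (not_le.1 hD) (by positivity)
    linarith [norm_nonneg (X * Y' - X' * Y)]
  rw [e, norm_div, norm_neg, norm_mul, div_le_div_iff₀ (by positivity) (by positivity)]
  calc ‖X * Y' - X' * Y‖ * μ ^ 2 ≤ D * (ρ * ρ') * μ ^ 2 := by gcongr
    _ = D * ((μ * ρ) * (μ * ρ')) := by ring
    _ ≤ D * (‖X‖ * ‖X'‖) := by gcongr

lemma zbound {X Y X' Y' β : ℂ} {D ρ ρ' μ C e s : ℝ} (hμ : 0 < μ) (hρ : 0 < ρ) (hρ' : 0 < ρ')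
    (hs : 0 ≤ s) (hX' : μ * ρ' ≤ ‖X'‖) (hX : ‖X‖ ≤ C * (μ * ρ))
    (h : ‖X' * Y - X * Y'‖ ≤ D * (ρ' * ρ)) (he : ‖s * (Y' / X') - β‖ ≤ e) :
    ‖s * Y - β * X‖ ≤ s * D * ρ / μ + C * (μ * ρ) * e := by
  have h2 : 0 < ‖X'‖ := lt_of_lt_of_le (by positivity) hX'
  have h2' : X' ≠ 0 := norm_pos_iff.1 h2
  have hD : 0 ≤ D := by
    by_contra hD
    have : D * (ρ' * ρ) < 0 := mul_neg_of_neg_of_pos (not_le.1 hD) (by positivity)
    linarith [norm_nonneg (X' * Y - X * Y')]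
  have e1 : s * Y - β * X = s * ((X' * Y - X * Y') / X') + X * (s * (Y' / X') - β) := by
    field_simp
    ring
  have h3 : ‖(X' * Y - X * Y') / X'‖ ≤ D * ρ / μ := by
    rw [norm_div, div_le_div_iff₀ h2 hμ]
    calc ‖X' * Y - X * Y'‖ * μ ≤ D * (ρ' * ρ) * μ := by gcongr
      _ = D * ρ * (μ * ρ') := by ring
      _ ≤ D * ρ * ‖X'‖ := by gcongr
  rw [e1]
  calc ‖s * ((X' * Y - X * Y') / X') + X * (s * (Y' / X') - β)‖
      ≤ ‖(s : ℂ) * ((X' * Y - X * Y') / X')‖ + ‖X * (s * (Y' / X') - β)‖ := norm_add_le _ _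
    _ = s * ‖(X' * Y - X * Y') / X'‖ + ‖X‖ * ‖s * (Y' / X') - β‖ := by
        rw [norm_mul, norm_mul, Complex.norm_real, Real.norm_of_nonneg hs]
    _ ≤ s * (D * ρ / μ) + C * (μ * ρ) * e := by
        have h5 := norm_nonneg ((s : ℂ) * (Y' / X') - β)
        have h6 : 0 ≤ C * (μ * ρ) := (norm_nonneg X).trans hX
        gcongr
    _ = s * D * ρ / μ + C * (μ * ρ) * e := by ring

lemma mubound {C D S s ρ μ : ℝ} {Z : ℂ} (hC : 1 ≤ C) (hD : 0 ≤ D) (hμ : 0 < μ) (hρ : 0 < ρ)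
    (hs : 0 ≤ s) (hsS : s ≤ S)
    (h1 : μ * ρ ≤ 2 * ‖Z‖)
    (h2 : ‖Z‖ ≤ s * D * ρ / μ + C * (μ * ρ) * (1 / (4 * C) + s * (D / μ ^ 2 / 2))) :
    μ ^ 2 ≤ 4 * S * D * (1 + C / 2) := by
  have hC0 : 0 < C := by linarith
  have e : s * D * ρ / μ + C * (μ * ρ) * (1 / (4 * C) + s * (D / μ ^ 2 / 2)) =
      ρ / μ * (s * D * (1 + C / 2) + μ ^ 2 / 4) := by
    field_simp
    ring
  rw [e] at h2
  have h3 : μ * ρ ≤ 2 * (ρ / μ * (s * D * (1 + C / 2) + μ ^ 2 / 4)) := by linarith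
  have h4 : μ ^ 2 ≤ 2 * (s * D * (1 + C / 2) + μ ^ 2 / 4) := by
    have h5 : μ * ρ * (μ / ρ) ≤ 2 * (ρ / μ * (s * D * (1 + C / 2) + μ ^ 2 / 4)) * (μ / ρ) := by
      gcongr
    have e2 : μ * ρ * (μ / ρ) = μ ^ 2 := by field_simp
    have e3 : 2 * (ρ / μ * (s * D * (1 + C / 2) + μ ^ 2 / 4)) * (μ / ρ) =
      2 * (s * D * (1 + C / 2) + μ ^ 2 / 4) := by field_simp
    linarith
  have h6 : s * D * (1 + C / 2) ≤ S * D * (1 + C / 2) := by gcongr
  linarith

theorem t_RED (hD : S_DIR) (hC : S_COV) (h1 : S_RED1) : S_RED := by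
  intro F _ _ B hB
  obtain ⟨C1, N, hC1, hred⟩ := h1 F
  obtain ⟨C2, hC2, hcov⟩ := hC F
  have hC10 : 0 < C1 := by linarith
  obtain ⟨S, hdir⟩ := hD F (1 / (4 * C1)) (by positivity)
  set D : ℝ := N * B with hDdef
  have hD0 : 0 ≤ D := by positivity
  set M : ℝ := 4 * S * D * (1 + C1 / 2) with hM
  have hM0 : 0 ≤ M := by positivity
  have hC20 : 0 < C2 := by linarith
  refine ⟨1 + 2 * C2 + C1 * (1 + M) + C1 * (D * (1 + C1 / 2) + C1 * C2 * M), ?_, ?_⟩
  · have : 0 ≤ C1 * (1 + M) := by positivity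
    have : 0 ≤ C1 * (D * (1 + C1 / 2) + C1 * C2 * M) := by positivity
    linarith
  intro ι _ E _ _ _ x y ρ hdeg hdist hint hρ hpl
  obtain ⟨a, b, c, d, Δ, μ, ha, hb, hc, hd, hdet, hΔ1, hΔN, hμ, hup, hlow, hmin⟩ :=
    hred ι E x y ρ hdeg hdist hint hρ
  choose i₀ hi₀ using hlow
  -- the bound for the Plücker coordinates of the new pair
  have hplz : ∀ (u : F →+* ℂ) (i j : EmbU F E u),
      ‖i.1.2 ((a • x + b • y) i.1.1) * j.1.2 ((c • x + d • y) j.1.1) -
        j.1.2 ((a • x + b • y) j.1.1) * i.1.2 ((c • x + d • y) i.1.1)‖ ≤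
        D * (ρ i.1.1 * ρ j.1.1) := by
    intro u i j
    have e := pl_lin i j x y a b c d
    rw [hdet, map_natCast] at e
    have e2 : i.1.2 ((a • x + b • y) i.1.1) * j.1.2 ((c • x + d • y) j.1.1) -
        j.1.2 ((a • x + b • y) j.1.1) * i.1.2 ((c • x + d • y) i.1.1) = Δ * pl E x y i.1 j.1 := e
    rw [e2, norm_mul, Complex.norm_natCast, hDdef, mul_assoc (N : ℝ) B]
    have := hpl u i j
    gcongr
  -- the quotients
  set w : DP.Emb E ℂ → ℂ := wt E (a • x + b • y) (c • x + d • y) with hw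
  have hwdef : ∀ i, w i = i.2 ((c • x + d • y) i.1) / i.2 ((a • x + b • y) i.1) := fun i => rfl
  have hX0 : ∀ u, (i₀ u).1.2 ((a • x + b • y) (i₀ u).1.1) ≠ 0 := fun u => by
    have := hi₀ u
    have h0 : 0 < μ * ρ (i₀ u).1.1 := mul_pos hμ (hρ _)
    exact norm_pos_iff.1 (by linarith)
  set w' : (F →+* ℂ) → ℂ := fun u =>
    (w (i₀ u).1 + (starRingEnd ℂ) (w (i₀ (ComplexEmbedding.conjugate u)).1)) / 2 with hw'
  have hcc : ∀ u : F →+* ℂ, ComplexEmbedding.conjugate (ComplexEmbedding.conjugate u) = u :=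
    fun u => star_star u
  have hw'c : ∀ u, w' (ComplexEmbedding.conjugate u) = (starRingEnd ℂ) (w' u) := by
    intro u
    have e : (i₀ (ComplexEmbedding.conjugate (ComplexEmbedding.conjugate u))).1 = (i₀ u).1 := by
      rw [hcc u]
    simp only [hw', map_div₀, map_add, Complex.conj_conj, map_ofNat]
    rw [e, add_comm]
  have hww' : ∀ u, ‖w (i₀ u).1 - w' u‖ ≤ D / μ ^ 2 / 2 := by
    intro u
    have e : w (i₀ u).1 - w' u =
        (w (i₀ u).1 - w (conjE (i₀ (ComplexEmbedding.conjugate u))).1) / 2 := by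
      rw [hw, wt_conjE]
      simp only [hw', hw]
      ring
    have hk : μ * ρ (conjE (i₀ (ComplexEmbedding.conjugate u))).1.1 ≤
        ‖(conjE (i₀ (ComplexEmbedding.conjugate u))).1.2
          ((a • x + b • y) (conjE (i₀ (ComplexEmbedding.conjugate u))).1.1)‖ := by
      rw [conjE_apply, Complex.norm_conj]
      exact hi₀ (ComplexEmbedding.conjugate u)
    have h := wdiff hμ (hρ _) (hρ _) (hi₀ u) hk
      (hplz u (i₀ u) (conjE (i₀ (ComplexEmbedding.conjugate u))))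
    rw [e, norm_div, hwdef, hwdef]
    have h2 : ‖(2 : ℂ)‖ = 2 := by simp
    rw [h2]
    linarith
  have hC1μ : 0 < C1 * μ := by positivity
  -- step 1
  have hμM : μ ^ 2 ≤ M := by
    obtain ⟨s, b', hs1, hsS, hb', hdist'⟩ := hdir w' hw'c
    have hs0 : (0 : ℝ) ≤ s := by positivity
    have hI : ∀ n : ℕ, IsIntegral ℤ (n : F) := fun n => by
      simpa using isIntegral_algebraMap (R := ℤ) (A := F) (x := (n : ℤ))
    obtain ⟨i, hi⟩ := hmin (s * c - b' * a) (s * d - b' * b)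
      (((hI s).mul hc).sub (hb'.mul ha)) (((hI s).mul hd).sub (hb'.mul hb)) (by
        by_contra hcon
        rw [not_or, not_not, not_not] at hcon
        have e : a * (s * d - b' * b) - b * (s * c - b' * a) = s * (a * d - b * c) := by ring
        rw [hcon.1, hcon.2, hdet] at e
        have : (s : F) * (Δ : F) ≠ 0 := by
          apply mul_ne_zero
          · exact Nat.cast_ne_zero.2 (by omega)
          · exact Nat.cast_ne_zero.2 (by omega)
        apply this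
        rw [← e]
        ring)
    set u : F →+* ℂ := i.2.comp (algebraMap F (E i.1)) with hu
    set iu : EmbU F E u := ⟨i, rfl⟩ with hiu
    have hZ : i.2 (((s * c - b' * a) • x + (s * d - b' * b) • y) i.1) =
        ((s : ℝ) : ℂ) * i.2 ((c • x + d • y) i.1) - u b' * i.2 ((a • x + b • y) i.1) := by
      have e1 := ev iu x y (s * c - b' * a) (s * d - b' * b)
      have e2 := ev iu x y c d
      have e3 := ev iu x y a b
      have f1 : i.2 (((s * c - b' * a) • x + (s * d - b' * b) • y) i.1) =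
        u (s * c - b' * a) * i.2 (x i.1) + u (s * d - b' * b) * i.2 (y i.1) := e1
      have f2 : i.2 ((c • x + d • y) i.1) = u c * i.2 (x i.1) + u d * i.2 (y i.1) := e2
      have f3 : i.2 ((a • x + b • y) i.1) = u a * i.2 (x i.1) + u b * i.2 (y i.1) := e3
      rw [f1, f2, f3]
      simp only [map_sub, map_mul, map_natCast, Complex.ofReal_natCast]
      ring
    have he : ‖((s : ℝ) : ℂ) * ((i₀ u).1.2 ((c • x + d • y) (i₀ u).1.1) /
        (i₀ u).1.2 ((a • x + b • y) (i₀ u).1.1)) - u b'‖ ≤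
        1 / (4 * C1) + s * (D / μ ^ 2 / 2) := by
      rw [← hwdef]
      have e : ((s : ℝ) : ℂ) * w (i₀ u).1 - u b' =
          ((s : ℂ) * w' u - u b') + ((s : ℝ) : ℂ) * (w (i₀ u).1 - w' u) := by
        rw [Complex.ofReal_natCast]
        ring
      rw [e]
      refine (norm_add_le _ _).trans ?_
      rw [norm_mul, Complex.norm_real, Real.norm_of_nonneg hs0]
      have := hdist' u
      have := hww' u
      gcongr
    have hz := zbound (X := i.2 ((a • x + b • y) i.1)) (Y := i.2 ((c • x + d • y) i.1))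
      (β := u b') hμ (hρ i.1) (hρ (i₀ u).1.1) hs0 (hi₀ u) (hup i)
      (hplz u (i₀ u) iu) he
    rw [hZ] at hi
    exact mubound (C := C1) (D := D) (S := S) (s := s) (ρ := ρ i.1) (μ := μ) hC1 hD0 hμ (hρ i.1)
      hs0 (by exact_mod_cast hsS) hi hz
  -- step 2
  obtain ⟨b', hb', hcb⟩ := hcov w' hw'c
  have hY' : ∀ (u : F →+* ℂ) (i : EmbU F E u),
      i.1.2 (((c - b' * a) • x + (d - b' * b) • y) i.1.1) =
        i.1.2 ((c • x + d • y) i.1.1) - u b' * i.1.2 ((a • x + b • y) i.1.1) := by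
    intro u i
    rw [ev, ev, ev]
    simp only [map_sub, map_mul]
    ring
  refine ⟨a, b, c - b' * a, d - b' * b, C1 * μ, i₀, ha, hb, hc.sub (hb'.mul ha),
    hd.sub (hb'.mul hb), ?_, hC1μ, ?_, ?_, ?_, ?_⟩
  · have e : a * (d - b' * b) - b * (c - b' * a) = a * d - b * c := by ring
    rw [e, hdet]
    exact Nat.cast_ne_zero.2 (by omega)
  · have h2 : μ ≤ 1 + M := by nlinarith [sq_nonneg (μ - 1)]
    have h3 : C1 * μ ≤ C1 * (1 + M) := by gcongr
    have : 0 ≤ C1 * (D * (1 + C1 / 2) + C1 * C2 * M) := by positivity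
    linarith
  · intro i
    rw [mul_assoc]
    exact hup i
  · intro i
    set u : F →+* ℂ := i.2.comp (algebraMap F (E i.1)) with hu
    set iu : EmbU F E u := ⟨i, rfl⟩ with hiu
    have he : ‖((1 : ℝ) : ℂ) * ((i₀ u).1.2 ((c • x + d • y) (i₀ u).1.1) /
        (i₀ u).1.2 ((a • x + b • y) (i₀ u).1.1)) - u b'‖ ≤ C2 + D / μ ^ 2 / 2 := by
      rw [← hwdef]
      have e : ((1 : ℝ) : ℂ) * w (i₀ u).1 - u b' = (w' u - u b') + (w (i₀ u).1 - w' u) := by
        rw [Complex.ofReal_one]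
        ring
      rw [e]
      exact (norm_add_le _ _).trans (add_le_add (hcb u) (hww' u))
    have hz := zbound (X := i.2 ((a • x + b • y) i.1)) (Y := i.2 ((c • x + d • y) i.1))
      (β := u b') hμ (hρ i.1) (hρ (i₀ u).1.1) zero_le_one (hi₀ u) (hup i)
      (hplz u (i₀ u) iu) he
    have h5 : i.2 (((c - b' * a) • x + (d - b' * b) • y) i.1) =
        i.2 ((c • x + d • y) i.1) - u b' * i.2 ((a • x + b • y) i.1) := hY' u iu
    rw [h5]
    rw [Complex.ofReal_one, one_mul] at hz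
    refine hz.trans ?_
    have e : 1 * D * ρ i.1 / μ + C1 * (μ * ρ i.1) * (C2 + D / μ ^ 2 / 2) =
        ρ i.1 / μ * (D * (1 + C1 / 2) + C1 * C2 * μ ^ 2) := by
      field_simp
      ring
    rw [e]
    have hρi := hρ i.1
    have h6 : ρ i.1 / μ * (D * (1 + C1 / 2) + C1 * C2 * μ ^ 2) ≤
        ρ i.1 / μ * (D * (1 + C1 / 2) + C1 * C2 * M) := by gcongr
    refine h6.trans ?_
    have e2 : (1 + 2 * C2 + C1 * (1 + M) + C1 * (D * (1 + C1 / 2) + C1 * C2 * M)) * ρ i.1 /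
        (C1 * μ) = (1 + 2 * C2 + C1 * (1 + M)) * ρ i.1 / (C1 * μ) +
          ρ i.1 / μ * (D * (1 + C1 / 2) + C1 * C2 * M) := by
      field_simp
    rw [e2]
    have : 0 ≤ (1 + 2 * C2 + C1 * (1 + M)) * ρ i.1 / (C1 * μ) := by positivity
    linarith
  · intro u
    refine ⟨hX0 u, ?_⟩
    have hwt : ∀ (v : F →+* ℂ),
        wt E (a • x + b • y) ((c - b' * a) • x + (d - b' * b) • y) (i₀ v).1 =
          w (i₀ v).1 - v b' := by
      intro v
      have h0 := hX0 v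
      rw [wt, hY' v (i₀ v), hwdef]
      field_simp
    rw [hwt, hwt, map_sub, ComplexEmbedding.conjugate_coe_eq, Complex.conj_conj]
    have e : w (i₀ u).1 - u b' + ((starRingEnd ℂ) (w (i₀ (ComplexEmbedding.conjugate u)).1) -
        u b') = 2 * (w' u - u b') := by
      simp only [hw']
      ring
    rw [e, norm_mul]
    have h2 : ‖(2 : ℂ)‖ = 2 := by simp
    rw [h2]
    have h3 := hcb u
    have : 0 ≤ C1 * (1 + M) := by positivity
    have : 0 ≤ C1 * (D * (1 + C1 / 2) + C1 * C2 * M) := by positivity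
    linarith

end Pool.Agent.K1H35.DF
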